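import Pool.Agent.Q104.TadGraph
import Pool.Agent.Q104.TadNeg

/-!
# MP_34deb4_co: the SSP tadpoles

The tadpole `T_{m,n}` (`m ≥ 3`, `n ≥ 1`), a unicyclic graph of girth `m`, belongs to `𝒢^SSP` if
and only if `m ≤ 2 n + 3`.
-/

set_option autoImplicit false

namespace Pool.Agent.Results.MP_34deb4_co.Tadpoles

open Pool.Agent.Q104.SSP

/-- For `m ≥ 3`, `n ≥ 1` the tadpole `T_{m,n}` is unicyclic of girth `m`, and it is in `𝒢^SSP` if
and only if `m ≤ 2 n + 3`. -/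
theorem result (m n : ℕ) (hm : 3 ≤ m) (hn : 1 ≤ n) :
    (Unicyclic (tadpole m n) ∧ (tadpole m n).girth = m) ∧
      (GSSP (tadpole m n) ↔ m ≤ 2 * n + 3) := by
  refine ⟨⟨tadpole_unicyclic hm, tadpole_girth hm⟩, ?_, fun h => tadpole_GSSP hm h⟩
  intro h
  by_contra hc
  exact tadpole_not_GSSP m n hn (by omega) h

end Pool.Agent.Results.MP_34deb4_co.Tadpoles
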